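import Pool.Agent.H.MP_119ce6_al.A

namespace Pool.Agent.Results.MP_119ce6_al.NotGenerated

/-- Affine automorphisms of the free associative algebra. -/
def IsAffine {K : Type} [Field K] {n : ℕ}
    (φ : FreeAlgebra K (Fin n) ≃ₐ[K] FreeAlgebra K (Fin n)) : Prop :=
  ∃ (a : GL (Fin n) K) (b : Fin n → K), ∀ i,
    φ (FreeAlgebra.ι K i) = ∑ j, a i j • FreeAlgebra.ι K j + algebraMap K _ (b i)

open Pool.Agent.H.MP_119ce6_al in
theorem result (n : ℕ) (hn : 4 ≤ n)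
    (σ : FreeAlgebra (ZMod 2) (Fin n) ≃ₐ[ZMod 2] FreeAlgebra (ZMod 2) (Fin n))
    (h1 : σ (FreeAlgebra.ι _ ⟨n - 1, by omega⟩) = FreeAlgebra.ι _ ⟨n - 1, by omega⟩ +
      FreeAlgebra.ι _ ⟨0, by omega⟩ * FreeAlgebra.ι _ ⟨1, by omega⟩)
    (h2 : ∀ i, i ≠ ⟨n - 1, by omega⟩ → σ (FreeAlgebra.ι _ i) = FreeAlgebra.ι _ i) :
    Subgroup.closure ({φ | IsAffine φ} ∪ {σ}) ≠ ⊤ := by
  intro h
  obtain ⟨φ, hφ⟩ := exists_odd (n := n) ⟨0, by omega⟩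
  have : Subgroup.closure ({φ | IsAffine φ} ∪ {σ}) ≤ Ev n := by
    rw [Subgroup.closure_le]
    rintro ψ (⟨a, b, hab⟩ | rfl)
    · exact aff_mem hn a b hab
    · exact sig_mem hn (by simp [Fin.ext_iff]; omega) (by simp [Fin.ext_iff]; omega) h1 h2
  exact hφ (this (h ▸ Subgroup.mem_top φ))

end Pool.Agent.Results.MP_119ce6_al.NotGenerated
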